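import Pool.Agent.Prc92f.Final
import Pool.Agent.Prc92f.Value

/-!
# Translative and lattice piercing densities agree for every pair of rectangles

`piT F` is the translative piercing density and `piL F` the lattice piercing density of the family `F` of
rectangles `r.1 × r.2`, `r ∈ F`.  For every pair of rectangles they are equal.  If `w₂ ≤ w₁` and `h₁ ≤ h₂`,
their common value is `1 / (D w₂ h₁)`, where for `w = w₁ / w₂`, `h = h₂ / h₁` and `m = min ⌊w⌋ ⌊h⌋`,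
`D = min (min w h) (max m (1 + (w - 1) (h - 1) / m))`.
-/

namespace Pool.Agent.Results.MP_aad70b_co.TwoRectangles

open Filter

/-- the closed axis-parallel rectangle of width `w` and height `h` with lower left corner `a` -/
def rect (w h : ℝ) (a : ℝ × ℝ) : Set (ℝ × ℝ) :=
  Set.Icc a.1 (a.1 + w) ×ˢ Set.Icc a.2 (a.2 + h)

/-- `P` meets every translate of every rectangle `r.1 × r.2`, `r ∈ F` -/
def Piercing (F : Set (ℝ × ℝ)) (P : Set (ℝ × ℝ)) : Prop :=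
  ∀ r ∈ F, ∀ a : ℝ × ℝ, (P ∩ rect r.1 r.2 a).Nonempty

/-- upper density: `limsup |P ∩ [-r, r]²| / (4 r²)` -/
noncomputable def density (P : Set (ℝ × ℝ)) : ENNReal :=
  limsup (fun r : ℝ =>
    ((P ∩ (Set.Icc (-r) r ×ˢ Set.Icc (-r) r)).encard : ENNReal) / ENNReal.ofReal (4 * r ^ 2)) atTop

/-- `Λ = {i u + j v : i, j ∈ ℤ}` with `u, v` linearly independent -/
def IsLattice (Λ : Set (ℝ × ℝ)) : Prop :=
  ∃ u v : ℝ × ℝ, u.1 * v.2 - u.2 * v.1 ≠ 0 ∧ Λ = {x | ∃ i j : ℤ, x = (i : ℝ) • u + (j : ℝ) • v}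

/-- translative piercing density -/
noncomputable def piT (F : Set (ℝ × ℝ)) : ENNReal :=
  ⨅ P ∈ {P : Set (ℝ × ℝ) | Piercing F P}, density P

/-- lattice piercing density -/
noncomputable def piL (F : Set (ℝ × ℝ)) : ENNReal :=
  ⨅ Λ ∈ {Λ : Set (ℝ × ℝ) | IsLattice Λ ∧ Piercing F Λ}, density Λ

/-- the maximal area per point for the rectangles `w × 1` and `1 × h`, where `w, h ≥ 1` -/
noncomputable def area (w h : ℝ) : ℝ :=
  min (min w h) (max (min (⌊w⌋₊ : ℝ) ⌊h⌋₊) (1 + (w - 1) * (h - 1) / min (⌊w⌋₊ : ℝ) ⌊h⌋₊))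

theorem result :
    (∀ w₁ h₁ w₂ h₂ : ℝ, 0 < w₁ → 0 < h₁ → 0 < w₂ → 0 < h₂ →
      piT {(w₁, h₁), (w₂, h₂)} = piL {(w₁, h₁), (w₂, h₂)}) ∧
    (∀ w₁ h₁ w₂ h₂ : ℝ, 0 < w₂ → 0 < h₁ → w₂ ≤ w₁ → h₁ ≤ h₂ →
      piT {(w₁, h₁), (w₂, h₂)} =
        ENNReal.ofReal (1 / (area (w₁ / w₂) (h₂ / h₁) * (w₂ * h₁)))) :=
  ⟨Prc24.all, fun _ _ _ _ hw₂ hh₁ hw hh => (Prc24.value Prc24.sharp hw₂ hh₁ hw hh).1⟩

end Pool.Agent.Results.MP_aad70b_co.TwoRectangles
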